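import Pool.Agent.W488.KS.Stm5
import Pool.Agent.W988.KS.Pos

/-!
Project KS, part TRC: the trace of `c` is not zero.
-/

set_option autoImplicit false

open Matrix Finset Module

namespace Pool.Agent.W882.KS

open Pool.Agent.W544.PG Pool.Agent.W488.KS Pool.Agent.W988.KS

noncomputable section

open scoped MatrixOrder ComplexOrder

/-- the form of `A` is a product `Cᴴ C` with `C` invertible -/
theorem fac {a : ℕ} (A : HW a) : ∃ C D : Matrix (Fin a) (Fin a) ℂ,
    mC A.E * cs A = Cᴴ * C ∧ D * C = 1 := by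
  have hE : (mC A.E)ᴴ = -mC A.E := by
    rw [mC_eq, rc_conj, ← rc_transpose, A.alt]
    ext i j
    simp [rc]
  have hy : (A.y)ᴴ = -(A.y)ᵀ := by
    have h := congrArg Matrix.transpose A.real
    rw [Matrix.transpose_neg] at h
    exact h
  have hs : mC A.E * A.y = -((A.y)ᵀ * mC A.E) := by
    rw [eq_neg_iff_add_eq_zero, add_comm]; exact A.skew
  have hH : (mC A.E * cs A).IsHermitian := by
    change (mC A.E * cs A)ᴴ = mC A.E * cs A
    rw [Matrix.conjTranspose_mul, hE, cs, Matrix.conjTranspose_smul, hy, Matrix.mul_smul, hs]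
    have : star (2 * Complex.I) = -(2 * Complex.I) := by
      rw [star_mul']
      have h1 : star Complex.I = -Complex.I := Complex.conj_I
      have h2 : star (2 : ℂ) = 2 := by
        rw [show (2 : ℂ) = ((2 : ℕ) : ℂ) by norm_num]
        exact star_natCast 2
      rw [h1, h2]
      ring
    rw [this]
    simp
  have hP : (mC A.E * cs A).PosDef := by
    refine Matrix.PosDef.of_dotProduct_mulVec_pos hH fun x hx => ?_
    have h1 := A.pos x hx
    change 0 < (star x ⬝ᵥ ((mC A.E * cs A) *ᵥ x)).re at h1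
    rw [Complex.lt_def]
    refine ⟨by simpa using h1, ?_⟩
    have h2 : star (star x ⬝ᵥ ((mC A.E * cs A) *ᵥ x)) = star x ⬝ᵥ ((mC A.E * cs A) *ᵥ x) := by
      conv_lhs =>
        rw [Matrix.star_dotProduct, star_star, Matrix.star_mulVec, ← Matrix.dotProduct_mulVec, hH.eq]
    have h3 := congrArg Complex.im h2
    have h4 : (star (star x ⬝ᵥ ((mC A.E * cs A) *ᵥ x))).im =
        -(star x ⬝ᵥ ((mC A.E * cs A) *ᵥ x)).im := Complex.conj_im _
    rw [h4] at h3
    simp only [Complex.zero_im]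
    linarith
  obtain ⟨C, hC⟩ := CStarAlgebra.nonneg_iff_eq_star_mul_self.mp hP.posSemidef.nonneg
  have hdet : IsUnit C.det := by
    have h1 := hP.isUnit
    rw [hC, Matrix.isUnit_iff_isUnit_det, Matrix.det_mul] at h1
    exact (isUnit_of_mul_isUnit_right h1)
  exact ⟨C, C⁻¹, hC, Matrix.nonsing_inv_mul _ hdet⟩

theorem diag_eq {a b : ℕ} (M : Matrix (Fin b) (Fin b) ℂ) (F : Matrix (Fin b) (Fin a) ℂ)
    (i : Fin a) :
    (Fᴴ * M * F) i i = star (fun k => F k i) ⬝ᵥ (M *ᵥ (fun k => F k i)) := by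
  rw [Matrix.mul_assoc]
  rfl

theorem trq {a b : ℕ} (B : HW b) (F : Matrix (Fin b) (Fin a) ℂ) :
    0 ≤ ((Fᴴ * (mC B.E * cs B) * F).trace).re ∧
      (((Fᴴ * (mC B.E * cs B) * F).trace).re = 0 → F = 0) := by
  have h : ∀ i, 0 ≤ ((Fᴴ * (mC B.E * cs B) * F) i i).re := by
    intro i
    rw [diag_eq]
    by_cases h0 : (fun k => F k i) = 0
    · rw [h0]; simp
    · exact (B.pos _ h0).le
  have ht : ((Fᴴ * (mC B.E * cs B) * F).trace).re = ∑ i, ((Fᴴ * (mC B.E * cs B) * F) i i).re := by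
    rw [Matrix.trace, Complex.re_sum]
    rfl
  rw [ht]
  refine ⟨Finset.sum_nonneg fun i _ => h i, fun hz => ?_⟩
  rw [Finset.sum_eq_zero_iff_of_nonneg fun i _ => h i] at hz
  ext k i
  by_contra hk
  have h0 : (fun k => F k i) ≠ 0 := fun h => hk (congrFun h k)
  have h1 := B.pos _ h0
  have h2 := hz i (Finset.mem_univ i)
  rw [diag_eq] at h2
  change 0 < (star (fun k => F k i) ⬝ᵥ ((mC B.E * cs B) *ᵥ (fun k => F k i))).re at h1
  linarith

theorem trz {a b : ℕ} (A : HW a) (B : HW b) (F G : Matrix (Fin b) (Fin a) ℂ)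
    (P R : Matrix (Fin a) (Fin b) ℂ) (hF : Fᴴ * (mC B.E * cs B) = (mC A.E * cs A) * P)
    (hG : Gᴴ * (mC B.E * cs B) = (mC A.E * cs A) * R)
    (h : (P * F).trace + (R * G).trace = 0) : F = 0 := by
  obtain ⟨C, D, hC, hD⟩ := fac A
  have hD' : C * D = 1 := mul_eq_one_comm.mp hD
  have key : ∀ (F : Matrix (Fin b) (Fin a) ℂ) (P : Matrix (Fin a) (Fin b) ℂ),
      Fᴴ * (mC B.E * cs B) = (mC A.E * cs A) * P →
      (P * F).trace = ((F * D)ᴴ * (mC B.E * cs B) * (F * D)).trace := by
    intro F P hF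
    have h1 : Dᴴ * Cᴴ = 1 := by
      rw [← Matrix.conjTranspose_mul, hD', Matrix.conjTranspose_one]
    have h2 : (F * D)ᴴ * (mC B.E * cs B) * (F * D) = C * (P * F * D) := by
      rw [Matrix.conjTranspose_mul, Matrix.mul_assoc Dᴴ, hF, hC]
      calc Dᴴ * (Cᴴ * C * P) * (F * D) = (Dᴴ * Cᴴ) * (C * (P * F * D)) := by
            simp only [Matrix.mul_assoc]
        _ = C * (P * F * D) := by rw [h1, Matrix.one_mul]
    rw [h2, Matrix.trace_mul_comm C (P * F * D), Matrix.mul_assoc (P * F) D C, hD, Matrix.mul_one]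
  rw [key F P hF, key G R hG] at h
  have h1 := congrArg Complex.re h
  rw [Complex.add_re, Complex.zero_re] at h1
  have q1 := trq B (F * D)
  have q2 := trq B (G * D)
  have h3 : F * D = 0 := q1.2 (by linarith [q1.1, q2.1])
  calc F = F * D * C := by rw [Matrix.mul_assoc, hD, Matrix.mul_one]
    _ = 0 := by rw [h3, Matrix.zero_mul]

variable {n a b : ℕ}

theorem trc1 (T : HS n) (A : HW a) (B : HW b) (Θ : Fin n → Matrix (Fin a) (Fin b) ℚ)
    (h : IsHodge3 T A B Θ)
    (hS : ∀ i j, (psi A Θ i * phi B Θ j + psi A Θ j * phi B Θ i).trace = 0) : ∀ i, Θ i = 0 := by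
  have htr : ∀ M : Matrix (Fin a) (Fin a) ℚ, (rc M).trace = ((M.trace : ℚ) : ℂ) := by
    intro M
    simp [Matrix.trace, rc]
  have hS' : ∀ u v : Fin n → ℂ,
      (lc (fun i => rc (psi A Θ i)) u * lc (fun i => rc (phi B Θ i)) v).trace +
      (lc (fun i => rc (psi A Θ i)) v * lc (fun i => rc (phi B Θ i)) u).trace = 0 := by
    intro u v
    have e : ∀ u v : Fin n → ℂ,
        lc (fun i => rc (psi A Θ i)) u * lc (fun i => rc (phi B Θ i)) v =
        ∑ i, ∑ j, (u i * v j) • rc (psi A Θ i * phi B Θ j) := by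
      intro u v
      rw [lc_apply, lc_apply, Matrix.sum_mul]
      refine Finset.sum_congr rfl fun i _ => ?_
      rw [Matrix.mul_sum]
      refine Finset.sum_congr rfl fun j _ => ?_
      rw [Matrix.smul_mul, Matrix.mul_smul, smul_smul, rc_mul]
    rw [← Matrix.trace_add, e u v, e v u,
      Finset.sum_comm (f := fun i j => (v i * u j) • rc (psi A Θ i * phi B Θ j)),
      ← Finset.sum_add_distrib, Matrix.trace_sum]
    refine Finset.sum_eq_zero fun i _ => ?_
    rw [← Finset.sum_add_distrib, Matrix.trace_sum]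
    refine Finset.sum_eq_zero fun j _ => ?_
    rw [mul_comm (v j), ← smul_add, ← rc_add, Matrix.trace_smul, htr, hS i j]
    simp
  -- kernel of `x`
  have h1 : ∀ v : Fin n → ℂ, star v = v → T.x *ᵥ v = 0 →
      lc (fun i => rc (phi B Θ i)) v = 0 := by
    intro v hv hx
    have hr := Psi_x T A B Θ h v
    rw [hx, map_zero] at hr
    have f := Phi_star2 A B Θ v
    rw [hv, case0 A B _ hr.symm] at f
    exact trz A B _ _ _ _ f f (hS' v v)
  -- eigenvectors
  have h2 : ∀ v : Fin n → ℂ, T.x *ᵥ v = v →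
      lc (fun i => rc (phi B Θ i)) v = 0 ∧ lc (fun i => rc (phi B Θ i)) (star v) = 0 := by
    intro v hx
    have hx' : T.x *ᵥ star v = -star v := by rw [star_x, hx]
    have e1 : A.y * lc (fun i => rc (psi A Θ i)) v - lc (fun i => rc (psi A Θ i)) v * B.y =
        (1 : ℂ) • lc (fun i => rc (psi A Θ i)) v := by
      rw [← Psi_x T A B Θ h v, hx, one_smul]
    have e2 : A.y * lc (fun i => rc (psi A Θ i)) (star v) -
        lc (fun i => rc (psi A Θ i)) (star v) * B.y =
        (-1 : ℂ) • lc (fun i => rc (psi A Θ i)) (star v) := by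
      rw [← Psi_x T A B Θ h (star v), hx', map_neg, neg_smul, one_smul]
    have f1 := Phi_star2 A B Θ v
    have f2 := Phi_star2 A B Θ (star v)
    rw [star_star] at f2
    rw [case1 A B _ _ (by norm_num) e2] at f1
    rw [case1 A B _ _ (by norm_num) e1] at f2
    have key : (-lc (fun i => rc (psi A Θ i)) (star v) *
        lc (fun i => rc (phi B Θ i)) v).trace + (-lc (fun i => rc (psi A Θ i)) v *
        lc (fun i => rc (phi B Θ i)) (star v)).trace = 0 := by
      rw [Matrix.neg_mul, Matrix.neg_mul, Matrix.trace_neg, Matrix.trace_neg, ← neg_add,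
        hS' (star v) v, neg_zero]
    refine ⟨trz A B _ _ _ _ f1 f2 key, ?_⟩
    rw [add_comm] at key
    exact trz A B _ _ _ _ f2 f1 key
  intro i
  have hphi : rc (phi B Θ i) = 0 := by
    have hst : star (Pi.single i 1 : Fin n → ℂ) = Pi.single i 1 := by
      funext j
      by_cases hj : j = i
      · subst hj; simp
      · simp [hj]
    set v : Fin n → ℂ := Pi.single i 1 with hv
    have hc : T.x *ᵥ (T.x *ᵥ (T.x *ᵥ v)) = T.x *ᵥ v := by
      rw [mulVec_mulVec, mulVec_mulVec, T.cube]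
    have hxx : star (T.x *ᵥ v) = -(T.x *ᵥ v) := by
      have := star_x T v
      rw [hst] at this
      rw [eq_neg_iff_add_eq_zero, add_comm]
      exact (eq_neg_iff_add_eq_zero.mp this)
    have hxxx : star (T.x *ᵥ (T.x *ᵥ v)) = T.x *ᵥ (T.x *ᵥ v) := by
      have := star_x T (T.x *ᵥ v)
      rw [hxx, mulVec_neg, neg_inj] at this
      exact this.symm
    have k1 := h1 (v - T.x *ᵥ (T.x *ᵥ v)) (by rw [star_sub, hst, hxxx])
      (by rw [mulVec_sub, hc, sub_self])
    have k2 := h2 (T.x *ᵥ (T.x *ᵥ v) + T.x *ᵥ v) (by rw [mulVec_add, hc, add_comm])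
    rw [star_add, hxx, hxxx] at k2
    have k3 : (2 : ℂ) • lc (fun i => rc (phi B Θ i)) v = 0 := by
      have : (2 : ℂ) • v = (2 : ℂ) • (v - T.x *ᵥ (T.x *ᵥ v)) +
          ((T.x *ᵥ (T.x *ᵥ v) + T.x *ᵥ v) + (T.x *ᵥ (T.x *ᵥ v) + -(T.x *ᵥ v))) := by module
      rw [← map_smul, this, map_add, map_add, map_smul, k1, k2.1, k2.2]
      simp
    have k4 : lc (fun i => rc (phi B Θ i)) v = 0 := by
      rcases smul_eq_zero.mp k3 with h | h
      · norm_num at h
      · exact h
    rw [lc_apply] at k4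
    rw [← k4]
    rw [Finset.sum_eq_single i]
    · rw [hv, Pi.single_eq_same, one_smul]
    · intro j _ hj
      rw [hv, Pi.single_eq_of_ne hj, zero_smul]
    · intro hi
      exact absurd (Finset.mem_univ i) hi
  have hphi0 := rc_inj _ hphi
  have hB : IsUnit B.E.det := (det_ne B).isUnit
  have h3 : B.E * phi B Θ i = -(Θ i)ᵀ := by
    rw [phi, Matrix.mul_neg, ← Matrix.mul_assoc, Matrix.mul_nonsing_inv _ hB, Matrix.one_mul]
  rw [hphi0, Matrix.mul_zero] at h3
  have h4 : (Θ i)ᵀ = 0 := neg_eq_zero.mp h3.symm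
  rw [← Matrix.transpose_transpose (Θ i), h4, Matrix.transpose_zero]

theorem trc : S_trc := by
  intro n a b T A B Θ h hne c hc h0
  obtain ⟨i, hi⟩ := hne
  refine hi (trc1 T A B Θ h (fun i j => ?_) i)
  rw [hc i j, Matrix.trace_smul, h0, smul_zero]

end

end Pool.Agent.W882.KS

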